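import Pool.Agent.H12.BP.Targets

/-!
Module GAM of bip_modules: the vertex game.
-/

set_option autoImplicit false

namespace Pool.Agent.H77.BP

open Finset hiding mk
open Pool.Agent.H12.BP

section
variable {V : Type} [Fintype V] [DecidableEq V]

/-- the complex of the position with the taken vertices `B` and the undecided vertices `Z` -/
def KK (s : ℕ) (G : SimpleGraph V) (B Z : Finset V) (σ : Finset V) : Prop :=
  σ ⊆ Z ∧ Peel s G ((B ∪ σ : Finset V) : Set V)

theorem on_on (G : SimpleGraph V) (W A : Set V) : on (on G W) A = on G (W ∩ A) := by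
  ext x y
  show (G.Adj x y ∧ x ∈ W ∧ y ∈ W) ∧ x ∈ A ∧ y ∈ A ↔ G.Adj x y ∧ x ∈ W ∩ A ∧ y ∈ W ∩ A
  simp only [Set.mem_inter_iff]
  tauto

theorem dg_zero {H : SimpleGraph V} {x : V} (h : dg H x = 0) : ∀ y, ¬ H.Adj x y := by
  intro y hy
  unfold dg at h
  rcases Nat.card_eq_zero.1 h with h1 | h1
  · exact h1.elim ⟨y, hy⟩
  · exact (Set.toFinite _).not_infinite (Set.infinite_coe_iff.1 h1)

theorem kk_down (hCOR : T_COR) (s : ℕ) (G : SimpleGraph V) (B Z : Finset V) :
    Down (KK s G B Z) := by
  rintro σ τ hτ ⟨h1, h2⟩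
  refine ⟨hτ.trans h1, (hCOR V s G ⊥).2.2.2.2.2.2 _ _ ?_ h2⟩
  intro v hv
  rw [Finset.mem_coe, Finset.mem_union] at hv ⊢
  exact hv.imp id fun h => hτ h

theorem kk_del (s : ℕ) (G : SimpleGraph V) (B Z : Finset V) (v : V) :
    (fun σ => KK s G B Z σ ∧ v ∉ σ) = KK s G B (Z.erase v) := by
  funext σ
  refine propext ⟨fun h => ⟨fun u hu => Finset.mem_erase.2 ⟨fun g => h.2 (g ▸ hu), h.1.1 hu⟩,
    h.1.2⟩, fun h => ⟨⟨h.1.trans (Finset.erase_subset _ _), h.2⟩, fun g => ?_⟩⟩
  exact absurd rfl (Finset.mem_erase.1 (h.1 g)).1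

theorem kk_link (s : ℕ) (G : SimpleGraph V) (B Z : Finset V) (v : V) (hv : v ∈ Z) :
    (fun σ => v ∉ σ ∧ KK s G B Z (insert v σ)) = KK s G (insert v B) (Z.erase v) := by
  funext σ
  have e : B ∪ insert v σ = insert v B ∪ σ := by
    rw [Finset.union_insert, Finset.insert_union]
  refine propext ⟨fun h => ⟨fun u hu => Finset.mem_erase.2 ⟨fun g => h.1 (g ▸ hu),
    h.2.1 (Finset.mem_insert_of_mem hu)⟩, ?_⟩, fun h => ⟨fun g => ?_, ?_, ?_⟩⟩
  · rw [← e]
    exact h.2.2
  · exact absurd rfl (Finset.mem_erase.1 (h.1 g)).1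
  · intro u hu
    rcases Finset.mem_insert.1 hu with h1 | h1
    · exact h1 ▸ hv
    · exact Finset.mem_of_mem_erase (h.1 h1)
  · rw [e]
    exact h.2

/-- an isolated vertex -/
theorem kk_cone (hCNE : T_CNE) (hCOR : T_COR) (hISO : T_ISO) (s : ℕ) (G : SimpleGraph V)
    (B Z : Finset V) (W : Set V) (v : V) (hv : v ∈ Z) (hBZ : ∀ u, u ∈ B ∨ u ∈ Z → u ∈ W)
    (h : dg (core s (on G W)) v = 0) (j : ℕ) : Acyc (KK s G B Z) j := by
  refine hCNE V (KK s G B Z) v (kk_down hCOR s G B Z) (fun σ hσ => ⟨?_, ?_⟩) j
  · intro u hu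
    rcases Finset.mem_insert.1 hu with h1 | h1
    · exact h1 ▸ hv
    · exact hσ.1 h1
  · have h2 := hISO V s G W ((B ∪ σ : Finset V) : Set V) v (fun u hu => ?_) (hBZ v (Or.inr hv))
      (dg_zero h) hσ.2
    · have e : ((B ∪ insert v σ : Finset V) : Set V) = insert v ((B ∪ σ : Finset V) : Set V) := by
        rw [Finset.union_insert, Finset.coe_insert]
      rw [e]
      exact h2
    · rw [Finset.mem_coe, Finset.mem_union] at hu
      exact hBZ u (hu.imp id fun g => hσ.1 g)

theorem app_cases {L L1 L2 : List V} {v y : V} (h : L ++ [v] = L1 ++ y :: L2) :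
    (L1 = L ∧ y = v ∧ L2 = []) ∨ ∃ L3, L2 = L3 ++ [v] ∧ L = L1 ++ y :: L3 := by
  rcases List.eq_nil_or_concat L2 with h1 | ⟨L3, u, h1⟩
  · left
    subst h1
    have h2 := List.append_inj' h rfl
    refine ⟨h2.1.symm, ?_, rfl⟩
    have := h2.2
    simp only [List.cons.injEq, and_true] at this
    exact this.symm
  · right
    rw [h1] at h
    have h2 : L ++ [v] = (L1 ++ y :: L3) ++ [u] := by
      rw [h]
      simp
    have h3 := List.append_inj' h2 rfl
    have h4 : v = u := by
      have := h3.2
      simp only [List.cons.injEq, and_true] at this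
      exact this
    refine ⟨L3, ?_, h3.1⟩
    rw [h1, h4, List.concat_eq_append]

end

/-- GAM -/
theorem pf_GAM (hMV : T_MV) (hCNE : T_CNE) (hCOR : T_COR) (hISO : T_ISO) : T_GAM := by
  intro V _ _ G X Y s k hXY hyp
  obtain ⟨W, hW⟩ : ∃ W : Set V, W = ((X ∪ Y : Finset V) : Set V) := ⟨_, rfl⟩
  have hcr : ∀ (T : Set V) (L : List V), cr s (cr s (on G W) T) {v | v ∈ L} =
      core s (on G (W ∩ (T ∪ {v | v ∈ L})ᶜ)) := by
    intro T L
    rw [(hCOR V s (on G W) ⊥).2.2.2.2.2.1 T {v | v ∈ L}]
    unfold cr
    rw [on_on]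
  have c1 : ∀ (n : ℕ) (Z B T : Finset V) (L : List V), Z.card = n → Z ⊆ Y → T ⊆ X →
      (∀ v ∈ L, v ∈ Y) → L.Nodup → Disjoint B Z →
      (∀ u, u ∈ B ∨ u ∈ Z → u ∈ W ∧ u ∉ T ∧ u ∉ L) →
      (∀ y ∈ Y, 1 ≤ dg (cr s (on G W) (T : Set V)) y) →
      GoodSeq s (cr s (on G W) (T : Set V)) L →
      (∀ L1 y L2, L = L1 ++ y :: L2 → ∀ z ∈ Z, dg (cr s (cr s (on G W) (T : Set V))
        {v | v ∈ L1}) z ≤ dg (cr s (cr s (on G W) (T : Set V)) {v | v ∈ L1}) y) →
      ∀ j, j + k < Z.card + T.card + L.length → Acyc (KK s G B Z) j := by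
    intro n
    induction n with
    | zero =>
      intro Z B T L hZ _ hT hL hnd _ _ h1 h2 _ j hj
      have := hyp T L hT hL hnd (by rw [← hW]; exact h1) (by rw [← hW]; exact h2)
      omega
    | succ n ih =>
      intro Z B T L hZ hZY hT hL hnd hBZ hin h1 h2 h3 j hj
      by_cases hiso : ∃ v ∈ Z, dg (cr s (cr s (on G W) (T : Set V)) {v | v ∈ L}) v = 0
      · obtain ⟨v, hv, hv0⟩ := hiso
        rw [hcr] at hv0
        refine kk_cone hCNE hCOR hISO s G B Z _ v hv (fun u hu => ?_) hv0 j
        have := hin u hu
        refine ⟨this.1, ?_⟩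
        rintro (g | g)
        · exact this.2.1 g
        · exact this.2.2 g
      · have hpos : ∀ v ∈ Z, 1 ≤ dg (cr s (cr s (on G W) (T : Set V)) {v | v ∈ L}) v := by
          intro v hv
          by_contra h0
          exact hiso ⟨v, hv, by omega⟩
        obtain ⟨v, hv, hmax⟩ := Finset.exists_max_image Z
          (fun v => dg (cr s (cr s (on G W) (T : Set V)) {v | v ∈ L}) v)
          (Finset.card_pos.1 (by omega))
        have hvL := hin v (Or.inr hv)
        have hvB : v ∉ B := fun g => (Finset.disjoint_left.1 hBZ g) hv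
        have hcard : (Z.erase v).card = n := by
          rw [Finset.card_erase_of_mem hv]
          omega
        refine hMV V (KK s G B Z) v (Z.card + T.card + L.length - k) (kk_down hCOR s G B Z)
          (fun i hi => ?_) (fun i hi => ?_) j (by omega)
        · rw [kk_del]
          refine ih (Z.erase v) B T (L ++ [v]) hcard ((Finset.erase_subset _ _).trans hZY) hT ?_
            ?_ (Finset.disjoint_of_subset_right (Finset.erase_subset _ _) hBZ) ?_ h1 ?_ ?_ i ?_
          · intro u hu
            rcases List.mem_append.1 hu with g | g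
            · exact hL u g
            · rw [List.mem_singleton] at g
              exact g ▸ hZY hv
          · rw [List.nodup_append]
            refine ⟨hnd, List.nodup_singleton v, fun a ha b hb => ?_⟩
            rw [List.mem_singleton] at hb
            intro g
            exact hvL.2.2 (hb ▸ g ▸ ha)
          · intro u hu
            have h4 : u ≠ v := by
              rcases hu with g | g
              · exact fun e => hvB (e ▸ g)
              · exact (Finset.mem_erase.1 g).1
            have h5 := hin u (hu.imp id fun g => Finset.mem_of_mem_erase g)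
            refine ⟨h5.1, h5.2.1, fun g => ?_⟩
            rcases List.mem_append.1 g with g | g
            · exact h5.2.2 g
            · exact h4 (List.mem_singleton.1 g)
          · intro L1 y L2 he
            rcases app_cases he with ⟨e1, e2, e3⟩ | ⟨L3, e1, e2⟩
            · subst e1 e2 e3
              exact ⟨hpos y hv, fun z hz => absurd hz List.not_mem_nil⟩
            · obtain ⟨g1, g2⟩ := h2 L1 y L3 e2
              refine ⟨g1, fun z hz => ?_⟩
              rw [e1] at hz
              rcases List.mem_append.1 hz with g | g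
              · exact g2 z g
              · rw [List.mem_singleton] at g
                subst g
                exact h3 L1 y L3 e2 z hv
          · intro L1 y L2 he z hz
            rcases app_cases he with ⟨e1, e2, e3⟩ | ⟨L3, e1, e2⟩
            · subst e1 e2 e3
              exact hmax z (Finset.mem_of_mem_erase hz)
            · exact h3 L1 y L3 e2 z (Finset.mem_of_mem_erase hz)
          · rw [List.length_append, hcard]
            simp only [List.length_singleton]
            omega
        · rw [kk_link s G B Z v hv]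
          refine ih (Z.erase v) (insert v B) T L hcard ((Finset.erase_subset _ _).trans hZY) hT
            hL hnd ?_ ?_ h1 h2 (fun L1 y L2 he z hz => h3 L1 y L2 he z
              (Finset.mem_of_mem_erase hz)) i ?_
          · rw [Finset.disjoint_insert_left]
            exact ⟨Finset.notMem_erase v Z,
              Finset.disjoint_of_subset_right (Finset.erase_subset _ _) hBZ⟩
          · rintro u (hu | hu)
            · rcases Finset.mem_insert.1 hu with g | g
              · exact g ▸ hvL
              · exact hin u (Or.inl g)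
            · exact hin u (Or.inr (Finset.mem_of_mem_erase hu))
          · rw [hcard]
            omega
  have c2 : ∀ (n : ℕ) (Zx B T : Finset V), Zx.card = n → Zx ⊆ X → T ⊆ X →
      Disjoint B (Zx ∪ Y) → (∀ u, u ∈ B ∨ u ∈ Zx ∪ Y → u ∈ W ∧ u ∉ T) →
      ∀ j, j + k < (Zx ∪ Y).card + T.card → Acyc (KK s G B (Zx ∪ Y)) j := by
    intro n
    induction n with
    | zero =>
      intro Zx B T hZ _ hT hBZ hin j hj
      have h0 : Zx = ∅ := Finset.card_eq_zero.1 hZ
      subst h0
      rw [Finset.empty_union] at hBZ hin hj ⊢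
      have hcr0 : cr s (on G W) (T : Set V) = core s (on G (W ∩ (T : Set V)ᶜ)) := by
        unfold cr
        rw [on_on]
      by_cases hiso : ∃ v ∈ Y, dg (cr s (on G W) (T : Set V)) v = 0
      · obtain ⟨v, hv, hv0⟩ := hiso
        rw [hcr0] at hv0
        exact kk_cone hCNE hCOR hISO s G B Y _ v hv (fun u hu => hin u hu) hv0 j
      · refine c1 Y.card Y B T [] rfl subset_rfl hT (fun v hv => absurd hv List.not_mem_nil)
          List.nodup_nil hBZ (fun u hu => ⟨(hin u hu).1, (hin u hu).2, List.not_mem_nil⟩)
          (fun y hy => ?_) (fun L1 y L2 he => ?_) (fun L1 y L2 he => ?_) j ?_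
        · by_contra h0
          exact hiso ⟨y, hy, by omega⟩
        · exact absurd he.symm (by simp)
        · exact absurd he.symm (by simp)
        · simp only [List.length_nil]
          omega
    | succ n ih =>
      intro Zx B T hZ hZX hT hBZ hin j hj
      obtain ⟨v, hv⟩ : Zx.Nonempty := Finset.card_pos.1 (by omega)
      have hvZ : v ∈ Zx ∪ Y := Finset.mem_union_left _ hv
      have hvY : v ∉ Y := Finset.disjoint_left.1 hXY (hZX hv)
      have hvT := hin v (Or.inr hvZ)
      have hvB : v ∉ B := fun g => (Finset.disjoint_left.1 hBZ g) hvZ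
      have he : (Zx ∪ Y).erase v = Zx.erase v ∪ Y := by
        rw [Finset.erase_union_distrib, Finset.erase_eq_of_notMem hvY]
      have hcard : (Zx.erase v).card = n := by
        rw [Finset.card_erase_of_mem hv]
        omega
      have hcard2 : (Zx.erase v ∪ Y).card + 1 = (Zx ∪ Y).card := by
        rw [← he, Finset.card_erase_of_mem hvZ]
        have := Finset.card_pos.2 ⟨v, hvZ⟩
        omega
      have hsub : Zx.erase v ∪ Y ⊆ Zx ∪ Y := by
        rw [← he]
        exact Finset.erase_subset _ _
      refine hMV V (KK s G B (Zx ∪ Y)) v ((Zx ∪ Y).card + T.card - k)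
        (kk_down hCOR s G B _) (fun i hi => ?_) (fun i hi => ?_) j (by omega)
      · rw [kk_del, he]
        refine ih (Zx.erase v) B (insert v T) hcard ((Finset.erase_subset _ _).trans hZX)
          (Finset.insert_subset (hZX hv) hT) (Finset.disjoint_of_subset_right hsub hBZ)
          (fun u hu => ?_) i ?_
        · have h5 := hin u (hu.imp id fun g => hsub g)
          refine ⟨h5.1, fun g => ?_⟩
          rcases Finset.mem_insert.1 g with g | g
          · subst g
            rcases hu with hu | hu
            · exact hvB hu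
            · rw [← he] at hu
              exact absurd rfl (Finset.mem_erase.1 hu).1
          · exact h5.2 g
        · rw [Finset.card_insert_of_notMem hvT.2]
          omega
      · rw [kk_link s G B _ v hvZ, he]
        refine ih (Zx.erase v) (insert v B) T hcard ((Finset.erase_subset _ _).trans hZX) hT
          ?_ ?_ i ?_
        · rw [Finset.disjoint_insert_left]
          refine ⟨?_, Finset.disjoint_of_subset_right hsub hBZ⟩
          rw [← he]
          exact Finset.notMem_erase v _
        · rintro u (hu | hu)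
          · rcases Finset.mem_insert.1 hu with g | g
            · exact g ▸ hvT
            · exact hin u (Or.inl g)
          · exact hin u (Or.inr (hsub hu))
        · omega
  intro j hj
  have h1 := c2 X.card X ∅ ∅ rfl subset_rfl (Finset.empty_subset _) (Finset.disjoint_empty_left _)
    (fun u hu => ⟨?_, Finset.notMem_empty u⟩) j (by simpa using hj)
  · have e : KK s G ∅ (X ∪ Y) = fun σ : Finset V => Peel s G (σ : Set V) ∧ σ ⊆ X ∪ Y := by
      funext σ
      unfold KK
      rw [Finset.empty_union, and_comm]
    rw [e] at h1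
    exact h1
  · rw [hW, Finset.mem_coe]
    exact hu.elim (fun g => absurd g (Finset.notMem_empty u)) id

end Pool.Agent.H77.BP
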