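import Pool.Agent.H77.BP.Stk

/-!
Module MRK of bip_modules: the mark lemma for a tight stuck set.
-/

set_option autoImplicit false

namespace Pool.Agent.H77.BP

open Finset hiding mk
open Pool.Agent.H12.BP

theorem mom_prod {V Sig F : Type} [Fintype V] [DecidableEq V] [Fintype Sig] [Field F]
    {w : Sig → F} {x : Sig → V → F} {β e : V → ℕ} {c : V} {t : F} (h : Acts w x β e c t)
    (he : e c = 0) {ι : Type} [DecidableEq ι] (s : ι → F) (J : Finset ι) :
    ∀ a : V → ℕ, a c + J.card ≤ β c → (∀ v, v ≠ c → a v + e v ≤ β v) →
      Mom (fun σ => w σ * ∏ i ∈ J, (x σ c - s i)) x a = (∏ i ∈ J, (t - s i)) * Mom w x a := by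
  induction J using Finset.induction_on with
  | empty =>
    intro a _ _
    simp
  | insert j J hj ih =>
    intro a ha h1
    rw [Finset.card_insert_of_notMem hj] at ha
    have e1 : (fun σ => w σ * ∏ i ∈ insert j J, (x σ c - s i)) =
        fun σ => (w σ * ∏ i ∈ J, (x σ c - s i)) * (x σ c - s j) := by
      funext σ
      rw [Finset.prod_insert hj]
      ring
    rw [e1, mom_sub, ih a (by omega) h1, ih (bump a c), h a, Finset.prod_insert hj]
    · ring
    · intro v
      unfold bump
      by_cases hv : v = c
      · subst hv
        simp only [if_true]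
        omega
      · simp only [hv, if_false]
        exact h1 v hv
    · unfold bump
      simp only [if_true]
      omega
    · intro v hv
      unfold bump
      simp only [hv, if_false]
      exact h1 v hv

/-- MRK -/
theorem pf_MRK (hPRN : T_PRN) : T_MRK := by
  intro V Sig F _ _ _ _ _ w x β S h
  induction h generalizing w β S with
  | zero =>
    intro c t hd _ _ _ _ _ _ hD
    refine hd fun a ha => ?_
    have := hD a (fun v => by simpa using ha v)
    simpa using this
  | succ h ih =>
    intro c t hd hst hb hc hcS ht hh hD
    have hn : S.card - 1 = (S.erase (c 0)).card := (Finset.card_erase_of_mem (hcS 0)).symm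
    have h1 : Stuck (mk (S.erase (c 0)) (t 0) w x) x
        (fun v => β v - if v ∈ S.erase (c 0) then 1 else 0) (S.erase (c 0)) := by
      intro s a ha
      refine stuck_mk hst hst (hcS 0) (hcS 0) (by have := hb _ (hcS 0); omega) (t 0) s a
        fun v => ?_
      have := ha v
      by_cases hv : v ∈ S.erase (c 0)
      · simp only [hv, if_true] at this ⊢
        omega
      · simp only [hv, if_false] at this ⊢
        omega
    have h2 : ¬ Dead (mk (S.erase (c 0)) (t 0) w x) x
        (fun v => β v - if v ∈ S.erase (c 0) then 1 else 0) := by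
      intro hk
      refine not_kil hPRN hd hst (hcS 0) hb (t 0) fun a ha => hk a fun v => ?_
      have h7 : a v + (if v ∈ S.erase (c 0) then 1 else 0) ≤ β v := ha v
      show a v ≤ β v - if v ∈ S.erase (c 0) then 1 else 0
      omega
    have h3 := ih (mk (S.erase (c 0)) (t 0) w x)
      (fun v => β v - if v ∈ S.erase (c 0) then 1 else 0) (S.erase (c 0))
      (fun i => c i.succ) (fun i => t i.succ) h2 h1 (fun v hv => by
        have := hb v (Finset.mem_of_mem_erase hv)
        simp only [hv, if_true]
        omega)
      (hc.comp (Fin.succ_injective h))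
      (fun i => Finset.mem_erase.2 ⟨fun g => absurd (hc g) (Fin.succ_ne_zero i), hcS _⟩)
      (ht.comp (Fin.succ_injective h)) (by omega)
    have hne : ∀ i : Fin h, c 0 ≠ c i.succ := fun i g => absurd (hc g).symm (Fin.succ_ne_zero i)
    obtain ⟨e, he⟩ : ∃ e : V → ℕ, e = fun v => (if v ∈ S.erase (c 0) then 1 else 0) +
      (univ.filter fun i : Fin h => v ∈ (S.erase (c 0)).erase (c i.succ)).card := ⟨_, rfl⟩
    have he0 : e (c 0) = 0 := by
      rw [he]
      simp
    obtain ⟨W, hW⟩ : ∃ W : Sig → F, W = fun σ => mk (S.erase (c 0)) (t 0) w x σ *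
      ∏ i : Fin h, ∏ v ∈ (S.erase (c 0)).erase (c i.succ), (x σ v - t i.succ) := ⟨_, rfl⟩
    have hact : Acts W x β e (c 0) (t 0) := by
      refine acts_of_kil (kil_congr (kil_prod (hst (t 0) : Kil _ _ _ _) univ
        (fun i : Fin h => (S.erase (c 0)).erase (c i.succ)) (fun i => t i.succ)) (fun σ => ?_)
        fun v => ?_)
      · rw [hW, mk_erase (hcS 0)]
        ring
      · rw [he]
        unfold bump
        by_cases h4 : v = c 0
        · subst h4
          simp [hcS 0]
        · simp [h4]
    have hkil : Kil W x β e := by
      refine kil_of_zero hact he0 fun a ha h4 => ?_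
      have h5 := mom_prod hact he0 (fun i : Fin h => t i.succ) univ a (by
        have := hb _ (hcS 0)
        rw [Finset.card_univ, Fintype.card_fin]
        omega) h4
      have h6 : (fun σ => W σ * ∏ i : Fin h, (x σ (c 0) - t i.succ)) =
          fun σ => w σ * ∏ i, ∏ v ∈ S.erase (c i), (x σ v - t i) := by
        funext σ
        rw [hW, Fin.prod_univ_succ]
        have h7 : ∀ i : Fin h, ∏ v ∈ S.erase (c i.succ), (x σ v - t i.succ) =
            (x σ (c 0) - t i.succ) *
              ∏ v ∈ (S.erase (c 0)).erase (c i.succ), (x σ v - t i.succ) := by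
          intro i
          rw [Finset.erase_right_comm, Finset.mul_prod_erase (S.erase (c i.succ))
            (fun v => x σ v - t i.succ) (Finset.mem_erase.2 ⟨hne i, hcS 0⟩)]
        rw [Finset.prod_congr rfl fun i _ => h7 i, Finset.prod_mul_distrib]
        unfold mk
        ring
      rw [h6, hD a] at h5
      · rcases mul_eq_zero.1 h5.symm with h8 | h8
        · obtain ⟨i, _, hi⟩ := Finset.prod_eq_zero_iff.1 h8
          exact absurd (ht (sub_eq_zero.1 hi)).symm (Fin.succ_ne_zero i)
        · exact h8
      · intro v
        by_cases hv : v = c 0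
        · subst hv
          rw [ha]
          exact Nat.zero_le _
        · have h9 := h4 v hv
          have h10 : (univ.filter fun i : Fin (h + 1) => v ∈ S.erase (c i)).card = e v := by
            rw [he, Fin.card_filter_univ_succ']
            have h11 : (univ.filter fun i : Fin h => v ∈ S.erase (c i.succ)) =
                univ.filter fun i : Fin h => v ∈ (S.erase (c 0)).erase (c i.succ) := by
              refine Finset.filter_congr fun i _ => ?_
              simp only [Finset.mem_erase]
              tauto
            rw [h11]
          show a v ≤ β v - (univ.filter fun i : Fin (h + 1) => v ∈ S.erase (c i)).card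
          rw [h10]
          omega
    refine h3 fun a ha => ?_
    have h12 := hkil a (fun v => ?_)
    · rw [hW] at h12
      exact h12
    · have h13 : a v ≤ (β v - if v ∈ S.erase (c 0) then 1 else 0) -
        (univ.filter fun i : Fin h => v ∈ (S.erase (c 0)).erase (c i.succ)).card := ha v
      have h14 : (univ.filter fun i : Fin h => v ∈ (S.erase (c 0)).erase (c i.succ)).card ≤ h := by
        refine (Finset.card_filter_le _ _).trans ?_
        rw [Finset.card_univ, Fintype.card_fin]
      rw [he]
      by_cases hv : v ∈ S.erase (c 0)
      · have h15 := hb v (Finset.mem_of_mem_erase hv)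
        simp only [hv, if_true] at h13 ⊢
        omega
      · have h16 : (univ.filter fun i : Fin h => v ∈ (S.erase (c 0)).erase (c i.succ)).card
            = 0 := by
          rw [Finset.card_eq_zero, Finset.filter_eq_empty_iff]
          intro i _ hi
          exact hv (Finset.mem_of_mem_erase hi)
        simp only [hv, if_false] at h13 ⊢
        omega

end Pool.Agent.H77.BP
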