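import Pool.Agent.H12.BP.Targets

/-!
Stuck sets: common lemmas for the modules MRK and UNC of bip_modules.
-/

set_option autoImplicit false

namespace Pool.Agent.H77.BP

open Finset hiding mk
open Pool.Agent.H12.BP

section
variable {V Sig F : Type} [Fintype V] [DecidableEq V] [Fintype Sig] [Field F]

/-- one more at `c` -/
def bump (a : V → ℕ) (c : V) : V → ℕ := fun v => a v + if v = c then 1 else 0

theorem mom_bump (w : Sig → F) (x : Sig → V → F) (a : V → ℕ) (c : V) :
    Mom w x (bump a c) = Mom (fun σ => w σ * x σ c) x a := by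
  unfold Mom bump
  refine Finset.sum_congr rfl fun σ _ => ?_
  have h0 : ∀ v, x σ v ^ (if v = c then 1 else 0) = if v = c then x σ v else 1 := by
    intro v
    by_cases h : v = c
    · rw [if_pos h, if_pos h, pow_one]
    · rw [if_neg h, if_neg h, pow_zero]
  have h1 : ∏ v, x σ v ^ (a v + if v = c then 1 else 0) = x σ c * ∏ v, x σ v ^ a v := by
    rw [Finset.prod_congr rfl (fun v _ => pow_add _ _ _), Finset.prod_mul_distrib,
      Finset.prod_congr rfl (fun v _ => h0 v), Finset.prod_ite_eq', if_pos (Finset.mem_univ c),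
      mul_comm]
  rw [h1]
  ring

theorem mom_sub (w : Sig → F) (x : Sig → V → F) (a : V → ℕ) (c : V) (t : F) :
    Mom (fun σ => w σ * (x σ c - t)) x a = Mom w x (bump a c) - t * Mom w x a := by
  rw [mom_bump]
  unfold Mom
  rw [Finset.mul_sum, ← Finset.sum_sub_distrib]
  refine Finset.sum_congr rfl fun σ _ => ?_
  ring

/-- the weights kill all exponents `a` with `a + e ≤ β` -/
def Kil (w : Sig → F) (x : Sig → V → F) (β e : V → ℕ) : Prop :=
  ∀ a : V → ℕ, (∀ v, a v + e v ≤ β v) → Mom w x a = 0

theorem kil_mul {w : Sig → F} {x : Sig → V → F} {β e : V → ℕ} (h : Kil w x β e) (c : V) (t : F) :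
    Kil (fun σ => w σ * (x σ c - t)) x β (bump e c) := by
  intro a ha
  rw [mom_sub, h a, h (bump a c)]
  · ring
  · intro v
    have := ha v
    unfold bump at this ⊢
    omega
  · intro v
    have := ha v
    unfold bump at this
    omega

theorem kil_congr {w w' : Sig → F} {x : Sig → V → F} {β e e' : V → ℕ} (h : Kil w x β e)
    (hw : ∀ σ, w' σ = w σ) (he : ∀ v, e v ≤ e' v) : Kil w' x β e' := by
  have h1 : w' = w := funext hw
  subst h1
  intro a ha
  exact h a fun v => le_trans (Nat.add_le_add_left (he v) _) (ha v)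

theorem mk_insert {S : Finset V} {c : V} (hc : c ∉ S) (t : F) (w : Sig → F) (x : Sig → V → F)
    (σ : Sig) : mk (insert c S) t w x σ = mk S t w x σ * (x σ c - t) := by
  unfold mk
  rw [Finset.prod_insert hc]
  ring

theorem mk_erase {S : Finset V} {c : V} (hc : c ∈ S) (t : F) (w : Sig → F) (x : Sig → V → F)
    (σ : Sig) : mk S t w x σ = mk (S.erase c) t w x σ * (x σ c - t) := by
  rw [← mk_insert (Finset.notMem_erase c S), Finset.insert_erase hc]

theorem mk_comm (S S' : Finset V) (t t' : F) (w : Sig → F) (x : Sig → V → F) (σ : Sig) :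
    mk S t (mk S' t' w x) x σ = mk S' t' (mk S t w x) x σ := by
  unfold mk
  ring

theorem kil_mk {w : Sig → F} {x : Sig → V → F} {β e : V → ℕ} (h : Kil w x β e) (A : Finset V)
    (t : F) : Kil (mk A t w x) x β (fun v => e v + if v ∈ A then 1 else 0) := by
  induction A using Finset.induction_on with
  | empty => exact kil_congr h (fun σ => by simp [mk]) (fun v => by simp)
  | insert c A hc ih =>
    refine kil_congr (kil_mul ih c t) (fun σ => mk_insert hc t w x σ) fun v => ?_
    unfold bump
    by_cases h1 : v = c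
    · subst h1
      simp [hc]
    · simp [h1]

theorem kil_prod {w : Sig → F} {x : Sig → V → F} {β e : V → ℕ} (h : Kil w x β e) {ι : Type}
    [DecidableEq ι] (I : Finset ι) (A : ι → Finset V) (t : ι → F) :
    Kil (fun σ => w σ * ∏ i ∈ I, ∏ v ∈ A i, (x σ v - t i)) x β
      (fun v => e v + (I.filter fun i => v ∈ A i).card) := by
  induction I using Finset.induction_on with
  | empty => exact kil_congr h (fun σ => by simp) (fun v => by simp)
  | insert c I hc ih =>
    refine kil_congr (kil_mk ih (A c) (t c)) (fun σ => ?_) fun v => ?_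
    · unfold mk
      rw [Finset.prod_insert hc]
      ring
    · rw [Finset.filter_insert]
      by_cases h1 : v ∈ A c
      · rw [if_pos h1, if_pos h1, Finset.card_insert_of_notMem (by simp [hc])]
        omega
      · rw [if_neg h1, if_neg h1]
        omega

theorem dead_iff (w : Sig → F) (x : Sig → V → F) (β : V → ℕ) :
    Dead w x β ↔ Kil w x β (fun _ => 0) :=
  ⟨fun h a ha => h a fun v => by simpa using ha v, fun h a ha => h a fun v => by simpa using ha v⟩

theorem stuck_iff (w : Sig → F) (x : Sig → V → F) (β : V → ℕ) (S : Finset V) :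
    Stuck w x β S ↔ ∀ t, Kil (mk S t w x) x β (fun v => if v ∈ S then 1 else 0) := Iff.rfl

/-- `x c` acts as the constant `t` -/
def Acts (w : Sig → F) (x : Sig → V → F) (β e : V → ℕ) (c : V) (t : F) : Prop :=
  ∀ a : V → ℕ, (∀ v, a v + bump e c v ≤ β v) → Mom w x (bump a c) = t * Mom w x a

theorem acts_of_kil {w : Sig → F} {x : Sig → V → F} {β e : V → ℕ} {c : V} {t : F}
    (h : Kil (fun σ => w σ * (x σ c - t)) x β (bump e c)) : Acts w x β e c t := by
  intro a ha
  have := h a ha
  rw [mom_sub] at this
  exact sub_eq_zero.1 this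

theorem kil_of_acts {w : Sig → F} {x : Sig → V → F} {β e : V → ℕ} {c : V} {t : F}
    (h : Acts w x β e c t) : Kil (fun σ => w σ * (x σ c - t)) x β (bump e c) := by
  intro a ha
  rw [mom_sub]
  exact sub_eq_zero.2 (h a ha)

theorem acts_pow {w : Sig → F} {x : Sig → V → F} {β e : V → ℕ} {c : V} {t : F}
    (h : Acts w x β e c t) (he : e c = 0) : ∀ (k : ℕ) (a : V → ℕ), a c = 0 →
      (∀ v, v ≠ c → a v + e v ≤ β v) → k ≤ β c →
      Mom w x (fun v => a v + if v = c then k else 0) = t ^ k * Mom w x a := by
  intro k
  induction k with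
  | zero =>
    intro a ha h1 hk
    simp
  | succ k ih =>
    intro a ha h1 hk
    have h2 := ih a ha h1 (by omega)
    have h3 : (fun v => a v + if v = c then k + 1 else 0) =
        bump (fun v => a v + if v = c then k else 0) c := by
      funext v
      unfold bump
      by_cases hv : v = c
      · simp [hv]
        omega
      · simp [hv]
    rw [h3, h _ (fun v => ?_), h2]
    · ring
    · unfold bump
      by_cases hv : v = c
      · subst hv
        simp only [if_true]
        omega
      · simp only [hv, if_false]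
        have := h1 v hv
        omega

theorem split_at (a : V → ℕ) (c : V) :
    a = fun v => (Function.update a c 0) v + if v = c then a c else 0 := by
  funext v
  by_cases hv : v = c
  · subst hv
    simp
  · simp [hv]

/-- values from the exponents with `0` at `c` -/
theorem kil_of_zero {w : Sig → F} {x : Sig → V → F} {β e : V → ℕ} {c : V} {t : F}
    (h : Acts w x β e c t) (he : e c = 0)
    (h0 : ∀ a : V → ℕ, a c = 0 → (∀ v, v ≠ c → a v + e v ≤ β v) → Mom w x a = 0) :
    Kil w x β e := by
  intro a ha
  rw [split_at a c, acts_pow h he (a c) (Function.update a c 0) (by simp) ?_ ?_, h0]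
  · ring
  · simp
  · intro v hv
    rw [Function.update_of_ne hv]
    exact ha v
  · intro v hv
    rw [Function.update_of_ne hv]
    exact ha v
  · have := ha c
    omega

/-- moments of marked weights are polynomials -/
theorem mom_poly (S : Finset V) (w : Sig → F) (x : Sig → V → F) (a : V → ℕ) :
    ∃ P : Polynomial F, P.natDegree ≤ S.card ∧ ∀ t, P.eval t = Mom (mk S t w x) x a := by
  classical
  refine ⟨∑ σ, Polynomial.C (w σ * ∏ v, x σ v ^ a v) *
    ∏ v ∈ S, (Polynomial.C (x σ v) - Polynomial.X), ?_, fun t => ?_⟩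
  · refine Polynomial.natDegree_sum_le_of_forall_le _ _ fun σ _ => ?_
    refine (Polynomial.natDegree_C_mul_le _ _).trans ?_
    refine (Polynomial.natDegree_prod_le _ _).trans ?_
    refine (Finset.sum_le_sum fun v _ => ?_).trans (by simp : ∑ _v ∈ S, 1 ≤ S.card)
    refine (Polynomial.natDegree_sub_le _ _).trans ?_
    simp
  · unfold Mom mk
    rw [Polynomial.eval_finsetSum]
    refine Finset.sum_congr rfl fun σ _ => ?_
    rw [Polynomial.eval_mul, Polynomial.eval_C, Polynomial.eval_prod]
    have : ∏ v ∈ S, Polynomial.eval t (Polynomial.C (x σ v) - Polynomial.X) =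
        ∏ v ∈ S, (x σ v - t) := Finset.prod_congr rfl fun v _ => by simp
    rw [this]
    ring

theorem mom_all [Infinite F] (S : Finset V) (w : Sig → F) (x : Sig → V → F) (a : V → ℕ) (t0 : F)
    (h : ∀ t, t ≠ t0 → Mom (mk S t w x) x a = 0) (t : F) : Mom (mk S t w x) x a = 0 := by
  obtain ⟨P, _, hP⟩ := mom_poly S w x a
  have h1 : P = 0 := by
    refine Polynomial.eq_zero_of_infinite_isRoot P ?_
    refine Set.Infinite.mono ?_ (Set.finite_singleton t0).infinite_compl
    intro s hs
    show P.eval s = 0
    rw [hP]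
    exact h s hs
  rw [← hP, h1]
  simp

/-- a stuck set which is small compared with the box -/
theorem prune_all (hPRN : T_PRN) [Infinite F] {w : Sig → F} {x : Sig → V → F} {β : V → ℕ}
    (n : ℕ) : ∀ S : Finset V, S.card = n → Stuck w x β S → (∀ v ∈ S, S.card ≤ β v) →
      Dead w x β := by
  induction n with
  | zero =>
    intro S hS h _
    have h1 : S = ∅ := Finset.card_eq_zero.1 hS
    subst h1
    intro a ha
    have h1 := h 0 a (fun v => by simpa using ha v)
    have h2 : mk ∅ 0 w x = w := by
      funext σ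
      unfold mk
      rw [Finset.prod_empty, mul_one]
    rwa [h2] at h1
  | succ n ih =>
    intro S hS h hb
    obtain ⟨c, hc⟩ : S.Nonempty := Finset.card_pos.1 (by omega)
    refine ih (S.erase c) (by rw [Finset.card_erase_of_mem hc]; omega)
      (hPRN V Sig F w x β S c h hc (hb c hc)) fun v hv => ?_
    rw [Finset.card_erase_of_mem hc]
    exact (Nat.sub_le _ _).trans (hb v (Finset.mem_of_mem_erase hv))

/-- the marked functional -/
theorem acts_mk {w : Sig → F} {x : Sig → V → F} {β : V → ℕ} {S : Finset V} {c : V}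
    (h : Stuck w x β S) (hc : c ∈ S) (t : F) :
    Acts (mk (S.erase c) t w x) x β (fun v => if v ∈ S.erase c then 1 else 0) c t := by
  refine acts_of_kil (kil_congr (h t : Kil _ _ _ _) (fun σ => (mk_erase hc t w x σ).symm)
    fun v => ?_)
  unfold bump
  by_cases h1 : v = c
  · subst h1
    simp [hc]
  · simp [h1]

/-- the moments with `0` at `c` do not depend on the mark -/
theorem mom_const [Infinite F] {w : Sig → F} {x : Sig → V → F} {β : V → ℕ} {S : Finset V} {c : V}
    (h : Stuck w x β S) (hc : c ∈ S) (hb : β c + 1 = S.card) (a : V → ℕ) (ha : a c = 0)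
    (h1 : ∀ v, v ≠ c → a v + (if v ∈ S.erase c then 1 else 0) ≤ β v) (t t' : F) :
    Mom (mk (S.erase c) t w x) x a = Mom (mk (S.erase c) t' w x) x a := by
  obtain ⟨P, _, hP⟩ := mom_poly (S.erase c) w x a
  obtain ⟨R, hR1, hR⟩ := mom_poly (S.erase c) w x (fun v => a v + if v = c then β c else 0)
  have h2 : R = Polynomial.X ^ (β c) * P := by
    refine Polynomial.funext fun s => ?_
    rw [hR, Polynomial.eval_mul, Polynomial.eval_pow, Polynomial.eval_X, hP]
    exact acts_pow (acts_mk h hc s) (by simp) (β c) a ha h1 le_rfl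
  have h3 : P.natDegree = 0 := by
    by_cases h0 : P = 0
    · rw [h0]; simp
    · rw [h2, Polynomial.natDegree_X_pow_mul _ h0, Finset.card_erase_of_mem hc] at hR1
      omega
  rw [← hP, ← hP, Polynomial.eq_C_of_natDegree_eq_zero h3]
  simp

/-- the marked functional is alive -/
theorem not_kil (hPRN : T_PRN) [Infinite F] {w : Sig → F} {x : Sig → V → F} {β : V → ℕ}
    {S : Finset V} {c : V} (hd : ¬ Dead w x β) (h : Stuck w x β S) (hc : c ∈ S)
    (hb : ∀ v ∈ S, β v + 1 = S.card) (t0 : F) :
    ¬ Kil (mk (S.erase c) t0 w x) x β (fun v => if v ∈ S.erase c then 1 else 0) := by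
  intro hk
  have h1 : Stuck w x β (S.erase c) := by
    intro t
    refine kil_of_zero (acts_mk h hc t) (by simp) fun a ha h2 => ?_
    rw [mom_const h hc (hb c hc) a ha h2 t t0]
    refine hk a fun v => ?_
    by_cases hv : v = c
    · subst hv
      simp [ha]
    · exact h2 v hv
  refine hd (prune_all hPRN _ (S.erase c) rfl h1 fun v hv => ?_)
  have := hb v (Finset.mem_of_mem_erase hv)
  rw [Finset.card_erase_of_mem hc]
  omega

/-- two constants -/
theorem kil_two {w : Sig → F} {x : Sig → V → F} {β e : V → ℕ} {c : V} {t t' : F}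
    (h : Acts w x β e c t) (h' : Acts w x β e c t') (he : e c = 0) (hc : 1 ≤ β c) (ht : t ≠ t') :
    Kil w x β e := by
  refine kil_of_zero h he fun a ha h1 => ?_
  have h2 : ∀ v, a v + bump e c v ≤ β v := by
    intro v
    unfold bump
    by_cases hv : v = c
    · subst hv
      simp only [if_true]
      omega
    · simp only [hv, if_false]
      exact h1 v hv
  have h3 := h a h2
  have h4 := h' a h2
  have h5 : (t - t') * Mom w x a = 0 := by
    rw [sub_mul, ← h3, ← h4, sub_self]
  rcases mul_eq_zero.1 h5 with h6 | h6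
  · exact absurd (sub_eq_zero.1 h6) ht
  · exact h6

/-- a second stuck set after a mark -/
theorem stuck_mk [Infinite F] {w : Sig → F} {x : Sig → V → F} {β : V → ℕ}
    {S S' : Finset V} {c : V} (h : Stuck w x β S) (h' : Stuck w x β S') (hc : c ∈ S)
    (hc' : c ∈ S') (hb : 1 ≤ β c) (t0 t : F) :
    Kil (mk (S'.erase c) t (mk (S.erase c) t0 w x) x) x β
      (fun v => (if v ∈ S.erase c then 1 else 0) + if v ∈ S'.erase c then 1 else 0) := by
  have key : ∀ t, t ≠ t0 → Kil (mk (S'.erase c) t (mk (S.erase c) t0 w x) x) x β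
      (fun v => (if v ∈ S.erase c then 1 else 0) + if v ∈ S'.erase c then 1 else 0) := by
    intro t ht
    refine kil_two (t := t) (t' := t0) (c := c) ?_ ?_ (by simp) hb ht
    · refine acts_of_kil (kil_congr (kil_mk (h' t : Kil _ _ _ _) (S.erase c) t0) (fun σ => ?_)
        fun v => ?_)
      · rw [mk_comm (S'.erase c) (S.erase c)]
        unfold mk
        rw [← Finset.mul_prod_erase S' _ hc']
        ring
      · unfold bump
        by_cases h1 : v = c
        · subst h1
          simp [hc']
        · simp [h1]
          omega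
    · refine acts_of_kil (kil_congr (kil_mk (kil_of_acts (acts_mk h hc t0)) (S'.erase c) t)
        (fun σ => ?_) fun v => ?_)
      · unfold mk
        ring
      · show (if v ∈ S.erase c then 1 else 0) + (if v = c then 1 else 0) +
          (if v ∈ S'.erase c then 1 else 0) ≤ (if v ∈ S.erase c then 1 else 0) +
          (if v ∈ S'.erase c then 1 else 0) + (if v = c then 1 else 0)
        omega
  intro a ha
  exact mom_all (S'.erase c) (mk (S.erase c) t0 w x) x a t0 (fun s hs => key s hs a ha) t

end

end Pool.Agent.H77.BP
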