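import Pool.Agent.H77.BP.Stk

/-!
Module UNC of bip_modules: tight stuck sets of the same size are equal or disjoint.
-/

set_option autoImplicit false

namespace Pool.Agent.H77.BP

open Finset hiding mk
open Pool.Agent.H12.BP

/-- UNC -/
theorem pf_UNC (hPRN : T_PRN) : T_UNC := by
  intro V Sig F _ _ _ _ _ w x β S S' hd hst hst' hcard hb hne
  by_contra hSS
  obtain ⟨c, hc⟩ := hne
  obtain ⟨hcS, hcS'⟩ := Finset.mem_inter.1 hc
  have hbS : ∀ v ∈ S, β v + 1 = S.card := fun v hv => hb v (Finset.mem_union_left _ hv)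
  have hbS' : ∀ v ∈ S', β v + 1 = S.card := fun v hv => hb v (Finset.mem_union_right _ hv)
  have hns : ¬ S' ⊆ S := fun g => hSS (Finset.eq_of_subset_of_card_le g hcard.le).symm
  obtain ⟨v0, hv0', hv0⟩ : ∃ v ∈ S', v ∉ S := Finset.not_subset.1 hns
  have hv0c : v0 ≠ c := fun g => hv0 (g ▸ hcS)
  have h2 : 2 ≤ S'.card := by
    have : ({v0, c} : Finset V) ⊆ S' := by
      intro v hv
      rcases Finset.mem_insert.1 hv with h | h
      · exact h ▸ hv0'
      · exact (Finset.mem_singleton.1 h) ▸ hcS'
    have h3 := Finset.card_le_card this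
    rwa [Finset.card_pair hv0c] at h3
  have h1 : Stuck (mk (S.erase c) 0 w x) x (fun v => β v - if v ∈ S.erase c then 1 else 0)
      (S'.erase c) := by
    intro s a ha
    refine stuck_mk hst hst' hcS hcS' (by have := hbS c hcS; omega) 0 s a fun v => ?_
    have h3 : a v + (if v ∈ S'.erase c then 1 else 0) ≤
      β v - (if v ∈ S.erase c then 1 else 0) := ha v
    show a v + ((if v ∈ S.erase c then 1 else 0) + (if v ∈ S'.erase c then 1 else 0)) ≤ β v
    by_cases hv : v ∈ S.erase c
    · have := hbS v (Finset.mem_of_mem_erase hv)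
      simp only [hv, if_true] at h3 ⊢
      omega
    · simp only [hv, if_false] at h3 ⊢
      omega
  have hcard' : (S'.erase c).card + 1 = S.card := by
    rw [Finset.card_erase_of_mem hcS']
    omega
  have hm : v0 ∈ S'.erase c := Finset.mem_erase.2 ⟨hv0c, hv0'⟩
  have h4 := hPRN V Sig F _ x _ (S'.erase c) v0 h1 hm (by
    have h5 := hbS' v0 hv0'
    have h6 : v0 ∉ S.erase c := fun g => hv0 (Finset.mem_of_mem_erase g)
    simp only [h6, if_false]
    omega)
  have h7 := prune_all hPRN _ _ rfl h4 fun v hv => by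
    have h8 := hbS' v (Finset.mem_of_mem_erase (Finset.mem_of_mem_erase hv))
    rw [Finset.card_erase_of_mem hm]
    show _ ≤ β v - if v ∈ S.erase c then 1 else 0
    by_cases hv : v ∈ S.erase c
    · simp only [hv, if_true]
      omega
    · simp only [hv, if_false]
      omega
  refine not_kil hPRN hd hst hcS hbS 0 fun a ha => h7 a fun v => ?_
  have h9 : a v + (if v ∈ S.erase c then 1 else 0) ≤ β v := ha v
  show a v ≤ β v - if v ∈ S.erase c then 1 else 0
  omega

end Pool.Agent.H77.BP
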